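import Mathlib
import Pool.Agent.Q114.Sh.Exi

/-!
# MP_9e3efc_al, Q1: disproof

Classes in `R` are given by their characters, i.e. by power series in `x₁, …, x_d`, `d = dim V`;
classes of representations of `PSL₃` by elements of the group ring `ℤ[Q]` of the root lattice. For
every `d ≥ 3` the character of the free alternative algebra `Alt(V)` differs from `a(V)`.
-/

set_option autoImplicit false

universe u

namespace Pool.Agent.Results.MP_9e3efc_al.FreeAssociative

open Pool.Agent.Q114.Sh

/-- For every `d ≥ 3` and every field `k` of characteristic zero: there is exactly one pair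
`(a, b)` as in the problem, and its first member is not the character of the free alternative
algebra of `V = k^d`. -/
theorem result (d : ℕ) (hd : 3 ≤ d) (k : Type u) [Field k] [CharZero k] :
    (∃! p : MvPowerSeries (Fin d) ℤ × MvPowerSeries (Fin d) ℤ, IsPair p.1 p.2) ∧
      ∀ a b : MvPowerSeries (Fin d) ℤ, IsPair a b → a ≠ chAlt k d :=
  ⟨existsUnique_pair d, fun _ _ h => ne_chAlt hd k h⟩

end Pool.Agent.Results.MP_9e3efc_al.FreeAssociative
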